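import Pool.Agent.Helper8_HK.Stmt2

/-! Squad HK (MP_574a97_nt), modules CLB and CLC: claims B and C. -/

set_option autoImplicit false

namespace Pool.Agent.HK.H38

open MvPolynomial

/-- `DD κ` as an additive map. -/
noncomputable def DDh {r : ℕ} {k : Type} [Field k] (κ : ZMod r →₀ ℕ) :
    MvPolynomial (Ix r) k →+ MvPolynomial (Ix r) k where
  toFun := DD κ
  map_zero' := by simp [DD]
  map_add' := by intro P Q; simp [DD]

lemma DD_zero {r : ℕ} {k : Type} [Field k] (κ : ZMod r →₀ ℕ) :
    DD κ (0 : MvPolynomial (Ix r) k) = 0 := (DDh κ).map_zero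

lemma comp_ne {r : ℕ} {k : Type} [Field k] (d : ZMod r → ℕ) (P : MvPolynomial (Ix r) k)
    (h : comp d P ≠ 0) : ∃ α ∈ P.support, ∀ s, ld α s = d s := by
  classical
  by_contra hn
  push Not at hn
  apply h
  unfold comp
  rw [Finset.sum_eq_zero]
  intro α hα
  rw [Finset.mem_filter] at hα
  obtain ⟨s, hs⟩ := hn α hα.1
  exact absurd (hα.2 s) hs

lemma main (p r : ℕ) [NeZero r] (k : Type) [Field k] (hSTR : STRStmt)
    (P : MvPolynomial (Ix r) k) (hT : TupS p P)
    (hP : MvPolynomial.aeval (fun j : Ix r => X j + 1) P = P)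
    (T : MvPolynomial (Ix r) k →+ MvPolynomial (Ix r) k) (D : ZMod r → ℕ)
    (κ0 : ZMod r →₀ ℕ) (h0 : κ0 ≠ 0)
    (H : ∀ κ : ZMod r →₀ ℕ, κ ≠ 0 → κ ≠ κ0 → ∀ t' : ZMod r → ℕ, (∀ i, t' i = 1 ∨ t' i = 2) →
      (∀ i, dt p t' i = D i + κ i) → T (DD κ (comp (dt p t') P)) = 0) :
    T (DD κ0 (comp (fun s => D s + κ0 s) P)) = 0 := by
  classical
  set S : Finset (ZMod r →₀ ℕ) := insert κ0 ((P.support.image
    (fun α => Finsupp.equivFunOnFinite.symm (fun s => ld α s - D s))).erase 0) with hS
  have hs0 : (0 : ZMod r →₀ ℕ) ∉ S := by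
    rw [hS, Finset.mem_insert, not_or]
    exact ⟨h0.symm, Finset.notMem_erase _ _⟩
  have h1 := hSTR r k P hP D S hs0 (by
    intro κ hκ hκS
    by_contra hc
    obtain ⟨α, hα, hld⟩ := comp_ne _ P hc
    apply hκS
    rw [hS, Finset.mem_insert]
    right
    refine Finset.mem_erase.2 ⟨hκ, Finset.mem_image.2 ⟨α, hα, ?_⟩⟩
    ext s
    simp only [Finsupp.equivFunOnFinite_symm_apply_apply, hld s]
    omega)
  have h2 : T (∑ κ ∈ S, DD κ (comp (fun s => D s + κ s) P)) =
      T (DD κ0 (comp (fun s => D s + κ0 s) P)) := by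
    rw [map_sum]
    refine Finset.sum_eq_single_of_mem κ0 (Finset.mem_insert_self _ _) ?_
    intro κ hκS hne
    by_cases hc : comp (fun s => D s + κ s) P = 0
    · rw [hc, DD_zero, map_zero]
    · obtain ⟨α, hα, hld⟩ := comp_ne _ P hc
      obtain ⟨t', ht', hlt⟩ := hT α hα
      have hd : ∀ i, dt p t' i = D i + κ i := by
        intro i
        have h3 := hlt i
        have h4 := hld i
        unfold dt
        omega
      have hκ0 : κ ≠ 0 := by
        rintro rfl
        exact hs0 hκS
      have h5 := H κ hκ0 hne t' ht' hd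
      have h6 : dt p t' = fun s => D s + κ s := funext hd
      rw [h6] at h5
      exact h5
  rw [← h2, h1, map_zero]

theorem clc (hSTR : STRStmt) (hCHN : CHNStmt) (hTAY : TAYStmt) (hCLA : CLAStmt) : CLCStmt := by
  intro p r hp _ k _ _ hr P hT hP t ht m hm
  classical
  have hp2 : 2 ≤ p := hp.out.two_le
  have hTA := (hTAY r k).2.2.2.2.1
  set e : ZMod r →₀ ℕ := Finsupp.single m 1 with he
  have he0 : e ≠ 0 := by
    rw [he]
    simp
  have hem : e m = 1 := by simp [he]
  have hei : ∀ i, i ≠ m → e i = 0 := by
    intro i hi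
    rw [he, Finsupp.single_apply, if_neg hi.symm]
  have hdt1 : 1 ≤ dt p t m := by
    unfold dt
    rw [hm]
    have : p * 1 ≤ p * t (m + 1) := Nat.mul_le_mul_left p (by rcases ht (m + 1) with h | h <;> omega)
    omega
  have h1 := main p r k hSTR P hT hP (DDh e) (fun i => dt p t i - e i) e he0 (by
    intro κ hκ hne t' ht' hd
    have h2 := (hCHN p r hp.out hr t t' ht ht' m).1 (by
      intro i
      have h3 := hd i
      by_cases hi : i = m
      · subst hi
        rw [if_pos rfl]
        omega
      · rw [if_neg hi]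
        have := hei i hi
        omega)
    rcases h2 with h2 | ⟨-, h2⟩
    · exfalso
      apply hne
      ext i
      have h3 := hd i
      rw [h2] at h3
      by_cases hi : i = m
      · subst hi
        omega
      · have := hei i hi
        omega
    · show DD e (DD κ (comp (dt p t') P)) = 0
      have h3 : DD e (DD κ (comp (dt p t') P)) = DD κ (DD e (comp (dt p t') P)) := by
        rw [hTA, hTA, add_comm e κ]
        congr 2
        refine Finset.prod_congr rfl fun s _ => ?_
        congr 1
        rw [add_comm (e s) (κ s)]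
        exact Nat.choose_symm_add.symm
      rw [h3, he, hCLA p r k hr P hT hP t' ht' m h2, DD_zero])
  have h2 : (fun s => (dt p t s - e s) + e s) = dt p t := by
    funext s
    by_cases hi : s = m
    · subst hi
      omega
    · have := hei s hi
      omega
  rw [h2] at h1
  exact h1

theorem clb (hSTR : STRStmt) (hCHN : CHNStmt) (hTAY : TAYStmt) (hCLA : CLAStmt) : CLBStmt := by
  intro p r hp _ k _ _ hr P hT hP t ht m hm hm1 hz
  classical
  have hp2 : 2 ≤ p := hp.out.two_le
  have hTA := (hTAY r k).2.2.2.2.1
  set e : ZMod r →₀ ℕ := Finsupp.single m p with he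
  have he0 : e ≠ 0 := by
    rw [he]
    simp
    omega
  have hem : e m = p := by simp [he]
  have hei : ∀ i, i ≠ m → e i = 0 := by
    intro i hi
    rw [he, Finsupp.single_apply, if_neg hi.symm]
  have hdt : dt p t m = 2 * p - 1 := by
    unfold dt
    rw [hm, hm1]
    omega
  have h1 := main p r k hSTR P hT hP (AddMonoidHom.id _) (fun i => dt p t i - e i) e he0 (by
    intro κ hκ hne t' ht' hd
    have h2 := (hCHN p r hp.out hr t t' ht ht' m).2 hm hm1 (by
      intro i
      have h3 := hd i
      by_cases hi : i = m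
      · subst hi
        rw [if_pos rfl]
        omega
      · rw [if_neg hi]
        have := hei i hi
        omega)
    show DD κ (comp (dt p t') P) = 0
    rcases h2 with h2 | ⟨h2, h2'⟩ | h2
    · exfalso
      apply hne
      ext i
      have h3 := hd i
      rw [h2] at h3
      by_cases hi : i = m
      · subst hi
        omega
      · have := hei i hi
        omega
    · have h3 : dt p t' m = 2 * p - 2 := by
        unfold dt
        rw [h2, h2']
        omega
      have h4 : κ m = p - 1 := by
        have := hd m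
        omega
      have h5 := hTA (κ - Finsupp.single m 1) (Finsupp.single m 1) (comp (dt p t') P)
      rw [hCLA p r k hr P hT hP t' ht' m h2, DD_zero] at h5
      have h6 : κ - Finsupp.single m 1 + Finsupp.single m 1 = κ := by
        apply tsub_add_cancel_of_le
        rw [Finsupp.single_le_iff]
        omega
      have h7 : (∏ s, ((((κ - Finsupp.single m 1 : ZMod r →₀ ℕ) s +
          (Finsupp.single m 1 : ZMod r →₀ ℕ) s).choose
          ((κ - Finsupp.single m 1 : ZMod r →₀ ℕ) s) : ℕ) : k)) = ((p - 1 : ℕ) : k) := by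
        rw [Finset.prod_eq_single m]
        · rw [← Finsupp.add_apply, h6, Finsupp.tsub_apply, Finsupp.single_eq_same, h4]
          congr 1
          have h8 : p - 1 = (p - 1 - 1) + 1 := by omega
          conv_lhs => rw [h8]
          simp only [Nat.add_sub_cancel]
          rw [Nat.choose_succ_self_right]
          omega
        · intro s _ hs
          have h9 : (Finsupp.single m 1 : ZMod r →₀ ℕ) s = 0 := by
            rw [Finsupp.single_apply, if_neg hs.symm]
          rw [h9, add_zero, Nat.choose_self, Nat.cast_one]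
        · intro h
          exact absurd (Finset.mem_univ m) h
      rw [h6, h7] at h5
      have h8 : ((p - 1 : ℕ) : k) ≠ 0 := by
        intro h9
        have h10 := (CharP.cast_eq_zero_iff k p (p - 1)).1 h9
        have h11 := Nat.le_of_dvd (by omega) h10
        omega
      have h12 : (C ((p - 1 : ℕ) : k) : MvPolynomial (Ix r) k) ≠ 0 := by
        rw [Ne, MvPolynomial.C_eq_zero]
        exact h8
      exact (mul_eq_zero.1 h5.symm).resolve_left h12
    · rw [h2, hz, DD_zero])
  have h2 : (fun s => (dt p t s - e s) + e s) = dt p t := by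
    funext s
    by_cases hi : s = m
    · subst hi
      omega
    · have := hei s hi
      omega
  rw [h2] at h1
  exact h1

end Pool.Agent.HK.H38
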